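import Mathlib

/-!
# Concentration of sums of bounded variables which are orthogonal to the past
-/

set_option autoImplicit false

namespace Pool.Agent.D0H24.SR

open MeasureTheory ProbabilityTheory Finset

lemma int_bdd {Ω : Type*} {m0 : MeasurableSpace Ω} {P : Measure Ω} [IsProbabilityMeasure P]
    {F : Ω → ℝ} (hF : Measurable F) (C : ℝ) (hC : ∀ ω, |F ω| ≤ C) : Integrable F P :=
  Integrable.of_bound hF.aestronglyMeasurable C (Filter.Eventually.of_forall hC)

/-- exponential moments -/
lemma az {Ω : Type*} {m0 : MeasurableSpace Ω} {P : Measure Ω} [IsProbabilityMeasure P]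
    (ℱ : ℕ → MeasurableSpace Ω) (hmono : Monotone ℱ) (hle : ∀ n, ℱ n ≤ m0) (D : ℕ → Ω → ℝ)
    (hD : ∀ j, Measurable[ℱ (j + 1)] (D j)) (hb : ∀ j ω, |D j ω| ≤ 1)
    (h0 : ∀ j, ∀ G : Ω → ℝ, Measurable[ℱ j] G → (∃ C, ∀ ω, |G ω| ≤ C) → ∫ ω, G ω * D j ω ∂P = 0)
    (t : ℝ) (ht0 : 0 ≤ t) (ht : t ≤ 1) (J : ℕ) :
    ∫ ω, Real.exp (t * ∑ j ∈ range J, D j ω) ∂P ≤ Real.exp (t ^ 2 * J) := by
  have hmeas : ∀ J, Measurable[ℱ J] (fun ω => Real.exp (t * ∑ j ∈ range J, D j ω)) := by
    intro J
    apply Real.measurable_exp.comp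
    apply Measurable.const_mul
    apply Finset.measurable_sum
    intro j hj
    rw [mem_range] at hj
    exact (hD j).mono (hmono hj) le_rfl
  have hbd : ∀ J, ∀ ω, |Real.exp (t * ∑ j ∈ range J, D j ω)| ≤ Real.exp J := by
    intro J ω
    rw [abs_of_pos (Real.exp_pos _), Real.exp_le_exp]
    have h1 : |∑ j ∈ range J, D j ω| ≤ J := by
      refine (abs_sum_le_sum_abs _ _).trans ((sum_le_sum fun j _ => hb j ω).trans ?_)
      simp
    calc t * ∑ j ∈ range J, D j ω ≤ |t * ∑ j ∈ range J, D j ω| := le_abs_self _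
      _ = t * |∑ j ∈ range J, D j ω| := by rw [abs_mul, abs_of_nonneg ht0]
      _ ≤ 1 * J := mul_le_mul ht h1 (abs_nonneg _) (by norm_num)
      _ = J := one_mul _
  induction J with
  | zero => simp
  | succ J ih =>
    have hi1 : Integrable (fun ω => Real.exp (t * ∑ j ∈ range J, D j ω)) P :=
      int_bdd ((hmeas J).mono (hle J) le_rfl) _ (hbd J)
    have hDm : Measurable (D J) := (hD J).mono (hle _) le_rfl
    have hi2 : Integrable (fun ω => Real.exp (t * ∑ j ∈ range J, D j ω) * D J ω) P := by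
      apply int_bdd (((hmeas J).mono (hle J) le_rfl).mul hDm) (Real.exp J)
      intro ω
      rw [Pi.mul_apply, abs_mul]
      calc _ ≤ Real.exp J * 1 := mul_le_mul (hbd J ω) (hb J ω) (abs_nonneg _) (Real.exp_pos _).le
        _ = _ := mul_one _
    have hle1 : ∫ ω, Real.exp (t * ∑ j ∈ range (J + 1), D j ω) ∂P ≤
        ∫ ω, ((1 + t ^ 2) * Real.exp (t * ∑ j ∈ range J, D j ω) +
          t * (Real.exp (t * ∑ j ∈ range J, D j ω) * D J ω)) ∂P := by
      apply integral_mono
      · exact int_bdd ((hmeas (J + 1)).mono (hle _) le_rfl) _ (hbd (J + 1))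
      · exact (hi1.const_mul _).add (hi2.const_mul _)
      · intro ω
        simp only
        rw [sum_range_succ, mul_add, Real.exp_add]
        have hD1 := hb J ω
        have hx : |t * D J ω| ≤ 1 := by
          rw [abs_mul, abs_of_nonneg ht0]
          calc _ ≤ (1 : ℝ) * 1 := mul_le_mul ht hD1 (abs_nonneg _) (by norm_num)
            _ = 1 := one_mul _
        have h2 := (abs_le.1 (Real.abs_exp_sub_one_sub_id_le hx)).2
        have h3 : (t * D J ω) ^ 2 ≤ t ^ 2 := by
          rw [mul_pow]
          have : (D J ω) ^ 2 ≤ 1 := by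
            rw [← sq_abs]
            nlinarith [abs_nonneg (D J ω)]
          nlinarith [sq_nonneg t]
        have h4 := Real.exp_pos (t * ∑ j ∈ range J, D j ω)
        have h5 : Real.exp (t * D J ω) ≤ (1 + t ^ 2) + t * D J ω := by linarith
        calc _ ≤ Real.exp (t * ∑ j ∈ range J, D j ω) * ((1 + t ^ 2) + t * D J ω) :=
              mul_le_mul_of_nonneg_left h5 h4.le
          _ = _ := by ring
    refine hle1.trans ?_
    rw [integral_add (hi1.const_mul _) (hi2.const_mul _), integral_const_mul, integral_const_mul,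
      h0 J _ (hmeas J) ⟨_, hbd J⟩, mul_zero, add_zero]
    have h6 : 1 + t ^ 2 ≤ Real.exp (t ^ 2) := by linarith [Real.add_one_le_exp (t ^ 2)]
    calc (1 + t ^ 2) * ∫ ω, Real.exp (t * ∑ j ∈ range J, D j ω) ∂P ≤
        Real.exp (t ^ 2) * Real.exp (t ^ 2 * J) := by
          apply mul_le_mul h6 ih _ (Real.exp_pos _).le
          exact integral_nonneg fun _ => (Real.exp_pos _).le
      _ = Real.exp (t ^ 2 * ((J + 1 : ℕ) : ℝ)) := by
          rw [← Real.exp_add]
          congr 1
          push_cast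
          ring

/-- one-sided tail -/
lemma tail {Ω : Type*} {m0 : MeasurableSpace Ω} {P : Measure Ω} [IsProbabilityMeasure P]
    (ℱ : ℕ → MeasurableSpace Ω) (hmono : Monotone ℱ) (hle : ∀ n, ℱ n ≤ m0) (D : ℕ → Ω → ℝ)
    (hD : ∀ j, Measurable[ℱ (j + 1)] (D j)) (hb : ∀ j ω, |D j ω| ≤ 1)
    (h0 : ∀ j, ∀ G : Ω → ℝ, Measurable[ℱ j] G → (∃ C, ∀ ω, |G ω| ≤ C) → ∫ ω, G ω * D j ω ∂P = 0)
    (t : ℝ) (ht0 : 0 ≤ t) (ht : t ≤ 1) (J : ℕ) (a : ℝ) :
    P.real {ω | a ≤ ∑ j ∈ range J, D j ω} ≤ Real.exp (-(t * a) + t ^ 2 * J) := by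
  have h1 := az ℱ hmono hle D hD hb h0 t ht0 ht J
  have hsum : Measurable (fun ω => ∑ j ∈ range J, D j ω) :=
    Finset.measurable_sum _ fun j _ => (hD j).mono (hle _) le_rfl
  have hint : Integrable (fun ω => Real.exp (t * ∑ j ∈ range J, D j ω)) P := by
    apply int_bdd (Real.measurable_exp.comp (hsum.const_mul t)) (Real.exp J)
    intro ω
    rw [Function.comp_apply, abs_of_pos (Real.exp_pos _), Real.exp_le_exp]
    have h1 : |∑ j ∈ range J, D j ω| ≤ J := by
      refine (abs_sum_le_sum_abs _ _).trans ((sum_le_sum fun j _ => hb j ω).trans ?_)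
      simp
    calc t * ∑ j ∈ range J, D j ω ≤ |t * ∑ j ∈ range J, D j ω| := le_abs_self _
      _ = t * |∑ j ∈ range J, D j ω| := by rw [abs_mul, abs_of_nonneg ht0]
      _ ≤ 1 * J := mul_le_mul ht h1 (abs_nonneg _) (by norm_num)
      _ = J := one_mul _
  have h2 := mul_meas_ge_le_integral_of_nonneg (μ := P)
    (Filter.Eventually.of_forall fun ω => (Real.exp_pos (t * ∑ j ∈ range J, D j ω)).le) hint
    (Real.exp (t * a))
  have h3 : P.real {ω | a ≤ ∑ j ∈ range J, D j ω} ≤
      P.real {ω | Real.exp (t * a) ≤ Real.exp (t * ∑ j ∈ range J, D j ω)} := by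
    apply measureReal_mono _ (measure_ne_top _ _)
    intro ω hω
    rw [Set.mem_ofPred_eq] at hω ⊢
    rw [Real.exp_le_exp]
    exact mul_le_mul_of_nonneg_left hω ht0
  have h4 : Real.exp (t * a) * P.real {ω | a ≤ ∑ j ∈ range J, D j ω} ≤ Real.exp (t ^ 2 * J) :=
    (mul_le_mul_of_nonneg_left h3 (Real.exp_pos _).le).trans (h2.trans h1)
  have h5 := Real.exp_pos (t * a)
  calc P.real {ω | a ≤ ∑ j ∈ range J, D j ω} =
        Real.exp (-(t * a)) * (Real.exp (t * a) * P.real {ω | a ≤ ∑ j ∈ range J, D j ω}) := by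
        rw [← mul_assoc, ← Real.exp_add, neg_add_cancel, Real.exp_zero, one_mul]
    _ ≤ Real.exp (-(t * a)) * Real.exp (t ^ 2 * J) := mul_le_mul_of_nonneg_left h4 (Real.exp_pos _).le
    _ = _ := by rw [← Real.exp_add]

lemma sum_classes (F : ℕ → ℝ) (k : ℕ) (J : ℕ) :
    ∑ n ∈ range (J * k), F n = ∑ r ∈ range k, ∑ j ∈ range J, F (r + j * k) := by
  induction J with
  | zero => simp
  | succ J ih =>
    rw [Nat.succ_mul, sum_range_add, ih]
    simp only [sum_range_succ]
    rw [sum_add_distrib]
    congr 1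
    apply sum_congr rfl
    intro r _
    rw [add_comm]

/-- concentration for variables orthogonal to the past up to `k` steps before -/
lemma conc {Ω : Type*} {m0 : MeasurableSpace Ω} {P : Measure Ω} [IsProbabilityMeasure P]
    (ℱ : ℕ → MeasurableSpace Ω) (hmono : Monotone ℱ) (hle : ∀ n, ℱ n ≤ m0) (k : ℕ) (hk : 1 ≤ k)
    (Z : ℕ → Ω → ℝ) (hZ : ∀ n, Measurable[ℱ n] (Z n)) (hb : ∀ n ω, |Z n ω| ≤ 1)
    (h0 : ∀ n, ∀ G : Ω → ℝ, Measurable[ℱ (n - k)] G → (∃ C, ∀ ω, |G ω| ≤ C) →
      ∫ ω, G ω * Z n ω ∂P = 0) (η : ℝ) (hη : 0 < η) (hη1 : η ≤ 1) (N : ℕ) :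
    P.real {ω | η * N ≤ |∑ n ∈ range N, Z n ω|} ≤ 6 * k * Real.exp (-(η ^ 2 * N / (4 * k))) := by
  have hk0 : (0 : ℝ) < k := by exact_mod_cast hk
  obtain ⟨J, hJ⟩ : ∃ J, J = N / k + 1 := ⟨_, rfl⟩
  have hJk : N ≤ J * k := by
    rw [hJ]
    have := Nat.div_add_mod N k
    have h2 := Nat.mod_lt N hk
    have h3 : (N / k + 1) * k = k * (N / k) + k := by ring
    omega
  have hJr : (J : ℝ) ≤ N / k + 1 := by
    rw [hJ]
    push_cast
    have := @Nat.cast_div_le ℝ _ _ _ N k
    linarith
  set D : ℝ → ℕ → ℕ → Ω → ℝ := fun s r j ω => if r + j * k < N then s * Z (r + j * k) ω else 0 with hDdef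
  have hDtail : ∀ s : ℝ, |s| = 1 → ∀ r : ℕ, P.real {ω | η * N / k ≤ ∑ j ∈ range J, D s r j ω} ≤
      3 * Real.exp (-(η ^ 2 * N / (4 * k))) := by
    intro s hs r
    have h1 := tail (P := P) (fun j => ℱ (r + j * k - k)) (fun a b hab => hmono (by
        have : a * k ≤ b * k := Nat.mul_le_mul_right _ hab
        omega)) (fun n => hle _) (D s r) (by
        intro j
        have e : r + (j + 1) * k - k = r + j * k := by
          have : (j + 1) * k = j * k + k := by ring
          omega
        show Measurable[ℱ (r + (j + 1) * k - k)] (D s r j)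
        rw [e]
        by_cases hc : r + j * k < N
        · have : D s r j = fun ω => s * Z (r + j * k) ω := by
            funext ω
            rw [hDdef]
            simp only
            rw [if_pos hc]
          rw [this]
          exact (hZ _).const_mul _
        · have : D s r j = fun ω => 0 := by
            funext ω
            rw [hDdef]
            simp only
            rw [if_neg hc]
          rw [this]
          exact measurable_const) (by
        intro j ω
        rw [hDdef]
        simp only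
        split_ifs
        · rw [abs_mul, hs, one_mul]
          exact hb _ _
        · simp) (by
        intro j G hG hGb
        rw [hDdef]
        by_cases hc : r + j * k < N
        · simp only [if_pos hc]
          have := h0 (r + j * k) G hG hGb
          have e : ∀ ω, G ω * (s * Z (r + j * k) ω) = s * (G ω * Z (r + j * k) ω) := fun ω => by ring
          simp only [e]
          rw [integral_const_mul, this, mul_zero]
        · simp only [if_neg hc, mul_zero, integral_zero]) (η / 2) (by positivity) (by linarith) J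
        (η * N / k)
    refine h1.trans ?_
    have e3 : Real.exp 1 ≤ 3 := by
      have := Real.exp_one_lt_d9
      linarith
    calc Real.exp (-(η / 2 * (η * N / k)) + (η / 2) ^ 2 * J) ≤
        Real.exp (1 + -(η ^ 2 * N / (4 * k))) := by
          rw [Real.exp_le_exp]
          have : (η / 2) ^ 2 * J ≤ (η / 2) ^ 2 * (N / k + 1) :=
            mul_le_mul_of_nonneg_left hJr (by positivity)
          have e4 : -(η / 2 * (η * N / k)) + (η / 2) ^ 2 * (N / k + 1) =
              (η / 2) ^ 2 + -(η ^ 2 * N / (4 * k)) := by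
            field_simp
            ring
          have e5 : (η / 2) ^ 2 ≤ 1 := by nlinarith
          linarith
      _ = Real.exp 1 * Real.exp (-(η ^ 2 * N / (4 * k))) := Real.exp_add _ _
      _ ≤ _ := mul_le_mul_of_nonneg_right e3 (Real.exp_pos _).le
  have hsub : {ω | η * N ≤ |∑ n ∈ range N, Z n ω|} ⊆
      ⋃ r ∈ range k, ({ω | η * N / k ≤ ∑ j ∈ range J, D 1 r j ω} ∪
        {ω | η * N / k ≤ ∑ j ∈ range J, D (-1) r j ω}) := by
    intro ω hω
    rw [Set.mem_ofPred_eq] at hω
    by_contra hcon
    simp only [Set.mem_iUnion, Set.mem_union, Set.mem_ofPred_eq, not_exists, not_or, not_le] at hcon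
    have h1 : ∑ n ∈ range N, Z n ω = ∑ r ∈ range k, ∑ j ∈ range J, D 1 r j ω := by
      have h2 := sum_classes (fun n => if n < N then Z n ω else 0) k J
      have h3 : ∑ n ∈ range (J * k), (if n < N then Z n ω else 0) = ∑ n ∈ range N, Z n ω := by
        rw [← sum_filter]
        apply sum_congr _ fun _ _ => rfl
        ext n
        rw [mem_filter, mem_range, mem_range]
        omega
      rw [h3] at h2
      rw [h2]
      apply sum_congr rfl
      intro r _
      apply sum_congr rfl
      intro j _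
      rw [hDdef]
      simp only [one_mul]
    have h2 : ∀ r ∈ range k, |∑ j ∈ range J, D 1 r j ω| < η * N / k := by
      intro r hr
      have h3 := hcon r hr
      have h4 : ∑ j ∈ range J, D (-1) r j ω = - ∑ j ∈ range J, D 1 r j ω := by
        rw [← sum_neg_distrib]
        apply sum_congr rfl
        intro j _
        rw [hDdef]
        simp only
        split_ifs
        · ring
        · simp
      rw [abs_lt]
      constructor
      · have := h3.2
        rw [h4] at this
        linarith
      · exact h3.1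
    have hne : (range k).Nonempty := nonempty_range_iff.2 (by omega)
    have h5 : |∑ n ∈ range N, Z n ω| < η * N := by
      rw [h1]
      refine (abs_sum_le_sum_abs _ _).trans_lt ((sum_lt_sum_of_nonempty hne h2).trans_le ?_)
      rw [sum_const, card_range, nsmul_eq_mul]
      apply le_of_eq
      field_simp
    linarith
  refine (measureReal_mono hsub (measure_ne_top _ _)).trans ?_
  refine (measureReal_biUnion_finset_le _ _).trans ?_
  calc ∑ r ∈ range k, P.real ({ω | η * N / k ≤ ∑ j ∈ range J, D 1 r j ω} ∪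
        {ω | η * N / k ≤ ∑ j ∈ range J, D (-1) r j ω}) ≤
      ∑ r ∈ range k, (3 * Real.exp (-(η ^ 2 * N / (4 * k))) + 3 * Real.exp (-(η ^ 2 * N / (4 * k)))) := by
        apply sum_le_sum
        intro r _
        refine (measureReal_union_le _ _).trans ?_
        exact add_le_add (hDtail 1 (by simp) r) (hDtail (-1) (by simp) r)
    _ = _ := by
        rw [sum_const, card_range, nsmul_eq_mul]
        ring

end Pool.Agent.D0H24.SR
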