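import Pool.Agent.D0H24.SR.Walk

/-!
# Smoothing by a random walk
-/

set_option autoImplicit false

namespace Pool.Agent.D0H24.SR

open MeasureTheory ProbabilityTheory Finset

set_option linter.unusedSectionVars false
set_option linter.unusedVariables false

variable {Ω : Type*} [m0 : MeasurableSpace Ω] {P : Measure Ω} {ξ : ℕ → Ω → ℕ}

lemma l1_le_sqrt_var [IsProbabilityMeasure P] (X : Ω → ℝ) (hX : Measurable X) (C : ℝ)
    (hC : ∀ ω, |X ω| ≤ C) : ∫ ω, |X ω - ∫ x, X x ∂P| ∂P ≤ Real.sqrt (variance X P) := by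
  set e := ∫ x, X x ∂P with he
  set Y : Ω → ℝ := fun ω => |X ω - e| with hY
  have hYm : Measurable Y := (hX.sub_const e).abs
  have hYb : ∀ ω, |Y ω| ≤ C + |e| := by
    intro ω
    rw [hY]
    simp only
    rw [abs_abs]
    exact (abs_sub _ _).trans (by linarith [hC ω])
  have hY2 : MemLp Y 2 P := MemLp.of_bound hYm.aestronglyMeasurable (C + |e|)
    (Filter.Eventually.of_forall hYb)
  have h1 := variance_eq_sub hY2
  have h2 := variance_nonneg Y P
  have h3 : ∫ ω, (Y ^ 2) ω ∂P = variance X P := by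
    rw [variance_eq_integral hX.aemeasurable]
    apply integral_congr_ae
    apply Filter.Eventually.of_forall
    intro ω
    simp only [hY, Pi.pow_apply, sq_abs, he]
  apply Real.le_sqrt_of_sq_le
  rw [← h3]
  linarith

/-- the number of steps equal to `u` -/
noncomputable def cnt (ξ : ℕ → Ω → ℕ) (u k : ℕ) (ω : Ω) : ℝ :=
  ∑ i ∈ range k, (if ξ i ω = u then (1 : ℝ) else 0)

lemma ind_meas (h : Iid P ξ) (i u : ℕ) : Measurable (fun ω => if ξ i ω = u then (1 : ℝ) else 0) :=
  (Measurable.of_discrete (f := fun n : ℕ => if n = u then (1 : ℝ) else 0)).comp (h.meas i)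

lemma ind_int [IsProbabilityMeasure P] (h : Iid P ξ) (i u : ℕ) :
    ∫ ω, (if ξ i ω = u then (1 : ℝ) else 0) ∂P = P.real {ω | ξ 0 ω = u} := by
  have h1 := (h.ident i).comp (u := fun n : ℕ => if n = u then (1 : ℝ) else 0) Measurable.of_discrete
  have h2 := h1.integral_eq
  simp only [Function.comp_def] at h2
  rw [h2]
  have h3 : (fun ω => if ξ 0 ω = u then (1 : ℝ) else 0) = Set.indicator {ω | ξ 0 ω = u} (fun _ => (1 : ℝ)) := by
    funext ω
    simp [Set.indicator_apply]
  have hs : MeasurableSet {ω | ξ 0 ω = u} := h.meas 0 (measurableSet_singleton u)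
  rw [h3, integral_indicator_const _ hs]
  simp

lemma cnt_meas (h : Iid P ξ) (u k : ℕ) : Measurable (cnt ξ u k) :=
  Finset.measurable_sum _ fun i _ => ind_meas h i u

lemma cnt_bd (u k : ℕ) (ω : Ω) : |cnt ξ u k ω| ≤ k := by
  unfold cnt
  refine (abs_sum_le_sum_abs _ _).trans ?_
  refine (sum_le_sum (g := fun _ => (1 : ℝ)) fun i _ => ?_).trans ?_
  · split_ifs <;> simp
  · simp

lemma cnt_l1 [IsProbabilityMeasure P] (h : Iid P ξ) (u k : ℕ) (hk : 1 ≤ k)
    (hp : 0 < P.real {ω | ξ 0 ω = u}) :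
    ∫ ω, |cnt ξ u k ω / (k * P.real {ω | ξ 0 ω = u}) - 1| ∂P ≤
      1 / Real.sqrt (k * P.real {ω | ξ 0 ω = u}) := by
  set p := P.real {ω | ξ 0 ω = u} with hpdef
  have hk0 : (0 : ℝ) < k := by exact_mod_cast hk
  have hkp : 0 < k * p := mul_pos hk0 hp
  have hE : ∫ ω, cnt ξ u k ω ∂P = k * p := by
    unfold cnt
    rw [integral_finsetSum]
    · simp only [ind_int h]
      rw [sum_const, card_range, nsmul_eq_mul]
    · intro i _
      exact Integrable.of_bound (ind_meas h i u).aestronglyMeasurable 1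
        (Filter.Eventually.of_forall fun ω => by split_ifs <;> simp)
  have hvar : variance (cnt ξ u k) P ≤ k * p := by
    have e : cnt ξ u k = ∑ i ∈ range k, (fun ω => if ξ i ω = u then (1 : ℝ) else 0) := by
      funext ω
      unfold cnt
      rw [Finset.sum_apply]
    rw [e, IndepFun.variance_sum]
    · have : ∀ i ∈ range k, variance (fun ω => if ξ i ω = u then (1 : ℝ) else 0) P ≤ p := by
        intro i _
        refine (variance_le_expectation_sq (ind_meas h i u).aestronglyMeasurable).trans (le_of_eq ?_)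
        rw [hpdef, ← ind_int h i u]
        apply integral_congr_ae
        apply Filter.Eventually.of_forall
        intro ω
        simp only [Pi.pow_apply]
        split_ifs <;> simp
      refine (sum_le_sum this).trans ?_
      rw [sum_const, card_range, nsmul_eq_mul]
    · intro i _
      exact MemLp.of_bound (ind_meas h i u).aestronglyMeasurable 1
        (Filter.Eventually.of_forall fun ω => by split_ifs <;> simp)
    · intro i _ j _ hij
      exact (h.indep.indepFun hij).comp (φ := fun n : ℕ => if n = u then (1 : ℝ) else 0)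
        (ψ := fun n : ℕ => if n = u then (1 : ℝ) else 0) Measurable.of_discrete Measurable.of_discrete
  have h1 := l1_le_sqrt_var (P := P) (cnt ξ u k) (cnt_meas h u k) k (cnt_bd u k)
  rw [hE] at h1
  have h2 : ∫ ω, |cnt ξ u k ω / (k * p) - 1| ∂P = (1 / (k * p)) * ∫ ω, |cnt ξ u k ω - k * p| ∂P := by
    rw [← integral_const_mul]
    apply integral_congr_ae
    apply Filter.Eventually.of_forall
    intro ω
    simp only
    have : cnt ξ u k ω / (k * p) - 1 = (1 / (k * p)) * (cnt ξ u k ω - k * p) := by field_simp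
    rw [this, abs_mul, abs_of_pos (by positivity : 0 < 1 / (k * p))]
  rw [h2]
  have h3 : Real.sqrt (variance (cnt ξ u k) P) ≤ Real.sqrt (k * p) := Real.sqrt_le_sqrt hvar
  have hs : 0 < Real.sqrt (k * p) := Real.sqrt_pos.2 hkp
  calc (1 / (k * p)) * ∫ ω, |cnt ξ u k ω - k * p| ∂P ≤ (1 / (k * p)) * Real.sqrt (k * p) :=
        mul_le_mul_of_nonneg_left (h1.trans h3) (by positivity)
    _ = 1 / Real.sqrt (k * p) := by
        have hs2 : Real.sqrt (k * p) * Real.sqrt (k * p) = k * p := Real.mul_self_sqrt hkp.le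
        rw [div_mul_eq_mul_div, one_mul, div_eq_div_iff hkp.ne' hs.ne', hs2, one_mul]

/-- exchanging one step -/
lemma exch [IsProbabilityMeasure P] (h : Iid P ξ) (u k : ℕ) (F : ℤ → ℝ) (hF : ∀ z, |F z| ≤ 1)
    (i : ℕ) (hi : i ∈ range k) :
    ∫ ω, (if ξ i ω = u then (1 : ℝ) else 0) * F (S ξ k ω) ∂P =
      P.real {ω | ξ 0 ω = u} * ∫ ω, F ((u : ℤ) + (∑ j ∈ (range k).erase i, ξ j) ω) ∂P := by
  have h1 : ∀ ω, (if ξ i ω = u then (1 : ℝ) else 0) * F (S ξ k ω) =
      (if ξ i ω = u then (1 : ℝ) else 0) * F ((u : ℤ) + ((∑ j ∈ (range k).erase i, ξ j) ω : ℕ)) := by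
    intro ω
    split_ifs with hc
    · congr 2
      have : S ξ k ω = u + (∑ j ∈ (range k).erase i, ξ j) ω := by
        unfold S
        rw [← add_sum_erase _ _ hi, hc, Finset.sum_apply]
      rw [this]
      push_cast
      rfl
    · simp
  simp only [h1]
  have hind : IndepFun (ξ i) (∑ j ∈ (range k).erase i, ξ j) P :=
    (h.indep.indepFun_finsetSum_of_notMem h.meas (notMem_erase i (range k))).symm
  have hm : Measurable (∑ j ∈ (range k).erase i, ξ j) := by
    have : (∑ j ∈ (range k).erase i, ξ j) = fun ω => ∑ j ∈ (range k).erase i, ξ j ω := by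
      funext ω
      rw [Finset.sum_apply]
    rw [this]
    exact Finset.measurable_sum _ fun j _ => h.meas j
  have h2 := hind.integral_fun_comp_mul_comp (f := fun n : ℕ => if n = u then (1 : ℝ) else 0)
    (g := fun n : ℕ => F ((u : ℤ) + (n : ℤ))) (h.meas i).aemeasurable hm.aemeasurable
    Measurable.of_discrete.aestronglyMeasurable Measurable.of_discrete.aestronglyMeasurable
  rw [h2, ind_int h i u]

/-- the smoothing estimate -/
lemma smooth [IsProbabilityMeasure P] (h : Iid P ξ) (u v : ℕ) (hu : 0 < P.real {ω | ξ 0 ω = u})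
    (hv : 0 < P.real {ω | ξ 0 ω = v}) (b : ℤ → ℝ) (hb : ∀ z, |b z| ≤ 1) (k : ℕ) (hk : 1 ≤ k) (z : ℤ) :
    |bk P ξ b k (z + ((v : ℤ) - u)) - bk P ξ b k z| ≤
      1 / Real.sqrt (k * P.real {ω | ξ 0 ω = u}) + 1 / Real.sqrt (k * P.real {ω | ξ 0 ω = v}) := by
  set p := P.real {ω | ξ 0 ω = u} with hpdef
  set q := P.real {ω | ξ 0 ω = v} with hqdef
  have hk0 : (0 : ℝ) < k := by exact_mod_cast hk
  have hSm := S_meas' h k
  -- weights
  have key : ∀ (w : ℕ) (y : ℤ) (r : ℝ), 0 < r → P.real {ω | ξ 0 ω = w} = r →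
      |bk P ξ b k y - ∫ ω, cnt ξ w k ω / (k * r) * b (y + S ξ k ω) ∂P| ≤ 1 / Real.sqrt (k * r) := by
    intro w y r hr hr2
    have hl := cnt_l1 h w k hk (by rw [hr2]; exact hr)
    rw [hr2] at hl
    have hbm : Measurable fun ω => b (y + S ξ k ω) :=
      (Measurable.of_discrete (f := fun n : ℕ => b (y + n))).comp hSm
    have hi1 : Integrable (fun ω => b (y + S ξ k ω)) P :=
      Integrable.of_bound hbm.aestronglyMeasurable 1 (Filter.Eventually.of_forall fun ω => hb _)
    have hcm : Measurable fun ω => cnt ξ w k ω / (k * r) := (cnt_meas h w k).div_const _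
    have hcb : ∀ ω, |cnt ξ w k ω / (k * r)| ≤ k / (k * r) := by
      intro ω
      rw [abs_div, abs_of_pos (by positivity : 0 < k * r)]
      exact div_le_div_of_nonneg_right (cnt_bd w k ω) (by positivity)
    have hi2 : Integrable (fun ω => cnt ξ w k ω / (k * r) * b (y + S ξ k ω)) P := by
      apply Integrable.of_bound (hcm.mul hbm).aestronglyMeasurable (k / (k * r))
      apply Filter.Eventually.of_forall
      intro ω
      rw [Real.norm_eq_abs, Pi.mul_apply, abs_mul]
      calc _ ≤ k / (k * r) * 1 := mul_le_mul (hcb ω) (hb _) (abs_nonneg _) (by positivity)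
        _ = _ := mul_one _
    unfold bk
    rw [← integral_sub hi1 hi2]
    refine (abs_integral_le_integral_abs).trans ?_
    refine le_trans ?_ hl
    apply integral_mono
    · exact (hi1.sub hi2).abs
    · have : Integrable (fun ω => cnt ξ w k ω / (k * r) - 1) P :=
        (Integrable.of_bound hcm.aestronglyMeasurable _ (Filter.Eventually.of_forall hcb)).sub
          (integrable_const 1)
      exact this.abs
    · intro ω
      simp only
      have e : b (y + S ξ k ω) - cnt ξ w k ω / (k * r) * b (y + S ξ k ω) =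
          -((cnt ξ w k ω / (k * r) - 1) * b (y + S ξ k ω)) := by ring
      rw [e, abs_neg, abs_mul]
      calc _ ≤ |cnt ξ w k ω / (k * r) - 1| * 1 := mul_le_mul_of_nonneg_left (hb _) (abs_nonneg _)
        _ = _ := mul_one _
  have hA := key u (z + ((v : ℤ) - u)) p hu rfl
  have hB := key v z q hv rfl
  -- the exchange
  have hex : ∫ ω, cnt ξ u k ω / (k * p) * b (z + ((v : ℤ) - u) + S ξ k ω) ∂P =
      ∫ ω, cnt ξ v k ω / (k * q) * b (z + S ξ k ω) ∂P := by
    have gen : ∀ (w : ℕ) (r : ℝ), 0 < r → P.real {ω | ξ 0 ω = w} = r → ∀ F : ℤ → ℝ, (∀ z, |F z| ≤ 1) →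
        ∫ ω, cnt ξ w k ω / (k * r) * F (S ξ k ω) ∂P =
          (1 / k) * ∑ i ∈ range k, ∫ ω, F ((w : ℤ) + (∑ j ∈ (range k).erase i, ξ j) ω) ∂P := by
      intro w r hr hr2 F hF
      have e1 : ∀ ω, cnt ξ w k ω / (k * r) * F (S ξ k ω) =
          (1 / (k * r)) * ∑ i ∈ range k, (if ξ i ω = w then (1 : ℝ) else 0) * F (S ξ k ω) := by
        intro ω
        unfold cnt
        rw [← sum_mul]
        ring
      simp only [e1]
      rw [integral_const_mul, integral_finsetSum]
      · rw [sum_congr rfl (fun i hi => exch h w k F hF i hi), ← mul_sum, hr2]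
        field_simp
      · intro i _
        have hbm : Measurable fun ω => F (S ξ k ω) :=
          (Measurable.of_discrete (f := fun n : ℕ => F n)).comp hSm
        apply Integrable.of_bound ((ind_meas h i w).mul hbm).aestronglyMeasurable 1
        apply Filter.Eventually.of_forall
        intro ω
        rw [Real.norm_eq_abs, Pi.mul_apply, abs_mul]
        have : |if ξ i ω = w then (1 : ℝ) else 0| ≤ 1 := by split_ifs <;> simp
        calc _ ≤ (1 : ℝ) * 1 := mul_le_mul this (hF _) (abs_nonneg _) (by norm_num)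
          _ = 1 := mul_one _
    rw [gen u p hu rfl (fun y => b (z + ((v : ℤ) - u) + y)) (fun _ => hb _),
      gen v q hv rfl (fun y => b (z + y)) (fun _ => hb _)]
    congr 1
    apply sum_congr rfl
    intro i _
    apply integral_congr_ae
    apply Filter.Eventually.of_forall
    intro ω
    simp only
    congr 1
    ring
  rw [hex] at hA
  have e : bk P ξ b k (z + ((v : ℤ) - u)) - bk P ξ b k z =
      (bk P ξ b k (z + ((v : ℤ) - u)) - ∫ ω, cnt ξ v k ω / (k * q) * b (z + S ξ k ω) ∂P) -
        (bk P ξ b k z - ∫ ω, cnt ξ v k ω / (k * q) * b (z + S ξ k ω) ∂P) := by ring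
  rw [e]
  exact (abs_sub _ _).trans (add_le_add hA hB)

end Pool.Agent.D0H24.SR
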