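import Mathlib

/-!
# Random walks with independent steps: orthogonality to the past and smoothing
-/

set_option autoImplicit false

namespace Pool.Agent.D0H24.SR

open MeasureTheory ProbabilityTheory Finset

/-- independent identically distributed steps -/
structure Iid {Ω : Type*} [MeasurableSpace Ω] (P : Measure Ω) (ξ : ℕ → Ω → ℕ) : Prop where
  meas : ∀ i, Measurable (ξ i)
  indep : iIndepFun ξ P
  ident : ∀ i, IdentDistrib (ξ i) (ξ 0) P P

/-- the walk -/
def S {Ω : Type*} (ξ : ℕ → Ω → ℕ) (n : ℕ) (ω : Ω) : ℕ := ∑ i ∈ range n, ξ i ω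

/-- the sum over a block -/
def V {Ω : Type*} (ξ : ℕ → Ω → ℕ) (n k : ℕ) (ω : Ω) : ℕ := ∑ i ∈ range k, ξ (n + i) ω

/-- the past -/
@[reducible] def Fil {Ω : Type*} (ξ : ℕ → Ω → ℕ) (n : ℕ) : MeasurableSpace Ω :=
  ⨆ i ∈ Set.Iio n, MeasurableSpace.comap (ξ i) inferInstance

/-- the averaged function -/
noncomputable def bk {Ω : Type*} [MeasurableSpace Ω] (P : Measure Ω) (ξ : ℕ → Ω → ℕ) (b : ℤ → ℝ)
    (k : ℕ) (z : ℤ) : ℝ := ∫ ω, b (z + S ξ k ω) ∂P

set_option linter.unusedSectionVars false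

variable {Ω : Type*} [m0 : MeasurableSpace Ω] {P : Measure Ω} {ξ : ℕ → Ω → ℕ}

lemma S_add (n k : ℕ) (ω : Ω) : S ξ (n + k) ω = S ξ n ω + V ξ n k ω := by
  unfold S V
  rw [sum_range_add]

lemma Fil_mono : Monotone (Fil ξ) := by
  intro a b hab
  exact biSup_mono fun i (hi : i < a) => lt_of_lt_of_le hi hab

lemma Fil_le (h : Iid P ξ) (n : ℕ) : Fil ξ n ≤ m0 :=
  iSup₂_le fun i _ => (h.meas i).comap_le

lemma xi_meas {n i : ℕ} (hi : i < n) : Measurable[Fil ξ n] (ξ i) := by
  rw [measurable_iff_comap_le]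
  exact le_iSup₂_of_le (f := fun i (_ : i ∈ Set.Iio n) => MeasurableSpace.comap (ξ i) inferInstance)
    i hi le_rfl

lemma S_meas (n : ℕ) : Measurable[Fil ξ n] (S ξ n) := by
  unfold S
  apply Finset.measurable_sum
  intro i hi
  exact xi_meas (mem_range.1 hi)

lemma S_meas' (h : Iid P ξ) (n : ℕ) : Measurable (S ξ n) := (S_meas n).mono (Fil_le h n) le_rfl

lemma V_meas (h : Iid P ξ) (n k : ℕ) : Measurable (V ξ n k) :=
  Finset.measurable_sum _ fun _ _ => h.meas _

lemma V_ident [IsProbabilityMeasure P] (h : Iid P ξ) (n k : ℕ) : IdentDistrib (V ξ n k) (S ξ k) P P := by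
  have h1 : IdentDistrib (fun ω => fun i => ξ (n + i) ω) (fun ω => fun i => ξ i ω) P P := by
    apply IdentDistrib.pi (X := fun i => ξ (n + i)) (Y := fun i => ξ i)
    · intro i
      exact (h.ident (n + i)).trans (h.ident i).symm
    · exact h.indep.precomp (g := fun i => n + i) (add_right_injective n)
    · exact h.indep
  exact h1.comp (u := fun x : ℕ → ℕ => ∑ i ∈ range k, x i)
    (Finset.measurable_sum _ fun i _ => measurable_pi_apply i)

lemma past_indep (h : Iid P ξ) (n k : ℕ) :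
    Indep (Fil ξ n) (MeasurableSpace.comap (V ξ n k) inferInstance) P := by
  have h1 : Indep (⨆ i ∈ Set.Iio n, MeasurableSpace.comap (ξ i) inferInstance)
      (⨆ i ∈ Set.Ici n, MeasurableSpace.comap (ξ i) inferInstance) P := by
    apply indep_iSup_of_disjoint (fun i => (h.meas i).comap_le) h.indep
    rw [Set.disjoint_left]
    intro i hi hi2
    exact absurd (Set.mem_Iio.1 hi) (not_lt.2 (Set.mem_Ici.1 hi2))
  apply indep_of_indep_of_le_right h1
  rw [← measurable_iff_comap_le]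
  apply Finset.measurable_sum
  intro i _
  rw [measurable_iff_comap_le]
  exact le_iSup₂_of_le (f := fun i (_ : i ∈ Set.Ici n) => MeasurableSpace.comap (ξ i) inferInstance)
    (n + i) (Nat.le_add_right n i) le_rfl

lemma abs_bk_le [IsProbabilityMeasure P] (b : ℤ → ℝ) (hb : ∀ z, |b z| ≤ 1) (k : ℕ) (z : ℤ) :
    |bk P ξ b k z| ≤ 1 := by
  unfold bk
  have := norm_integral_le_of_norm_le_const (μ := P) (f := fun ω => b (z + S ξ k ω)) (C := 1)
    (Filter.Eventually.of_forall fun ω => hb _)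
  rw [Real.norm_eq_abs] at this
  simpa using this

/-- orthogonality to the past -/
lemma orth_past [IsProbabilityMeasure P] (h : Iid P ξ) (b : ℤ → ℝ) (hb : ∀ z, |b z| ≤ 1) (n k : ℕ)
    (G : Ω → ℝ) (hG : Measurable[Fil ξ n] G) (hGb : ∃ C, ∀ ω, |G ω| ≤ C) :
    ∫ ω, G ω * (b (S ξ (n + k) ω) - bk P ξ b k (S ξ n ω)) ∂P = 0 := by
  obtain ⟨C, hC⟩ := hGb
  set U : Ω → ℝ × ℕ := fun ω => (G ω, S ξ n ω) with hU
  have hUm : Measurable[Fil ξ n] U := hG.prodMk (S_meas n)
  have hUm' : Measurable U := hUm.mono (Fil_le h n) le_rfl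
  have hVm := V_meas h n k
  have hind : IndepFun U (V ξ n k) P := by
    rw [IndepFun_iff_Indep]
    exact indep_of_indep_of_le_left (past_indep h n k) hUm.comap_le
  set F : (ℝ × ℕ) × ℕ → ℝ := fun p => p.1.1 * (b ((p.1.2 + p.2 : ℕ) : ℤ) - bk P ξ b k p.1.2) with hF
  have hFm : Measurable F := by
    have h1 : Measurable fun p : (ℝ × ℕ) × ℕ => b ((p.1.2 + p.2 : ℕ) : ℤ) :=
      (Measurable.of_discrete (f := fun q : ℕ × ℕ => b ((q.1 + q.2 : ℕ) : ℤ))).comp
        ((measurable_snd.comp measurable_fst).prodMk measurable_snd)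
    have h2 : Measurable fun p : (ℝ × ℕ) × ℕ => bk P ξ b k p.1.2 :=
      (Measurable.of_discrete (f := fun q : ℕ => bk P ξ b k q)).comp (measurable_snd.comp measurable_fst)
    exact (measurable_fst.comp measurable_fst).mul (h1.sub h2)
  have e1 : ∀ ω, G ω * (b (S ξ (n + k) ω) - bk P ξ b k (S ξ n ω)) = F (U ω, V ξ n k ω) := by
    intro ω
    rw [hF, hU]
    simp only
    rw [S_add]
  have hmap : P.map (fun ω => (U ω, V ξ n k ω)) = (P.map U).prod (P.map (V ξ n k)) :=
    (indepFun_iff_map_prod_eq_prod_map_map hUm'.aemeasurable hVm.aemeasurable).1 hind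
  have hpU : IsProbabilityMeasure (P.map U) := Measure.isProbabilityMeasure_map hUm'.aemeasurable
  have hpV : IsProbabilityMeasure (P.map (V ξ n k)) := Measure.isProbabilityMeasure_map hVm.aemeasurable
  have hUC : ∀ᵐ u ∂(P.map U), |u.1| ≤ C := by
    rw [ae_map_iff hUm'.aemeasurable (measurableSet_le (by fun_prop) measurable_const)]
    exact Filter.Eventually.of_forall fun ω => hC ω
  have hFint : Integrable F ((P.map U).prod (P.map (V ξ n k))) := by
    rw [← hmap]
    rw [integrable_map_measure hFm.aestronglyMeasurable (hUm'.prodMk hVm).aemeasurable]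
    apply Integrable.of_bound (hFm.comp (hUm'.prodMk hVm)).aestronglyMeasurable (C * 2)
    apply Filter.Eventually.of_forall
    intro ω
    rw [Function.comp_apply, hF]
    simp only
    rw [norm_mul]
    apply mul_le_mul (hC ω) _ (norm_nonneg _) ((abs_nonneg _).trans (hC ω))
    have h1 := norm_sub_le (b (((U ω).2 + V ξ n k ω : ℕ) : ℤ)) (bk P ξ b k ((U ω).2 : ℤ))
    have h2 := hb (((U ω).2 + V ξ n k ω : ℕ) : ℤ)
    have h3 := abs_bk_le (P := P) (ξ := ξ) b hb k ((U ω).2 : ℤ)
    rw [← Real.norm_eq_abs] at h2 h3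
    linarith
  simp only [e1]
  have e2 : ∫ ω, F (U ω, V ξ n k ω) ∂P = ∫ p, F p ∂(P.map (fun ω => (U ω, V ξ n k ω))) := by
    rw [integral_map (hUm'.prodMk hVm).aemeasurable hFm.aestronglyMeasurable]
  rw [e2, hmap, integral_prod F hFint]
  have e3 : ∀ u : ℝ × ℕ, ∫ v, F (u, v) ∂(P.map (V ξ n k)) = 0 := by
    intro u
    rw [hF]
    simp only
    rw [integral_const_mul]
    have h4 : Integrable (fun v : ℕ => b ((u.2 + v : ℕ) : ℤ)) (P.map (V ξ n k)) :=
      Integrable.of_bound Measurable.of_discrete.aestronglyMeasurable 1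
        (Filter.Eventually.of_forall fun v => hb _)
    rw [integral_sub h4 (integrable_const _)]
    have h5 : ∫ v, b ((u.2 + v : ℕ) : ℤ) ∂(P.map (V ξ n k)) = bk P ξ b k u.2 := by
      rw [(V_ident h n k).map_eq, integral_map (S_meas' h k).aemeasurable
        Measurable.of_discrete.aestronglyMeasurable]
      unfold bk
      simp only [Nat.cast_add]
    rw [h5, integral_const]
    simp
  simp only [e3, integral_zero]

end Pool.Agent.D0H24.SR
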